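import Pool.Agent.H18.KC.Stmts

/-!
# Module FRC of board kc: the final contradiction
-/

set_option autoImplicit false

open Finset

namespace Pool.Agent.H96.KC.FRC

open Pool.Agent.H18.KC

theorem step {t L V0 V1 V2 X R : ℝ} (ht : 0 < t) (hL : 0 < L) (h0 : 0 < V0) (h1 : 0 < V1)
    (h10 : V1 ≤ L * V0) (hR : 0 ≤ R) (htV : t * V1 ≤ V0)
    (h : R * (V0 - t * V1) ≤ 4 * ((V2 + X) * (V0 - t * V1) - V1 ^ 2)) :
    (1 - V2 / (L * V1)) + (R / (L ^ 2 * V0)) / 4 + t * L * (V1 / (L * V0)) ^ 2 ≤
      (1 - V1 / (L * V0)) + (X / V1) / L := by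
  have hW0 : 0 ≤ V0 - t * V1 := by linarith
  have hW : 0 < V0 - t * V1 := by
    rcases hW0.eq_or_lt with hz | hp
    · rw [← hz] at h
      have : V1 ^ 2 > 0 := by positivity
      linarith
    · exact hp
  have h2 : V1 ^ 2 ≤ (V2 + X - R / 4) * (V0 - t * V1) := by nlinarith
  have h3 : V1 ^ 2 * (V0 + t * V1) / V0 ^ 2 + R / 4 ≤ V2 + X := by
    have h4 : V1 ^ 2 * (V0 + t * V1) ≤ (V2 + X - R / 4) * V0 ^ 2 := by
      have h5 : V1 ^ 2 * (V0 + t * V1) ≤ (V2 + X - R / 4) * (V0 - t * V1) * (V0 + t * V1) :=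
        mul_le_mul_of_nonneg_right h2 (by positivity)
      have h6 : 0 ≤ V2 + X - R / 4 := by
        by_contra hn
        rw [not_le] at hn
        have : (V2 + X - R / 4) * (V0 - t * V1) < 0 := mul_neg_of_neg_of_pos hn hW
        have h7 : 0 < V1 ^ 2 := by positivity
        linarith
      have h7 : (V2 + X - R / 4) * (V0 - t * V1) * (V0 + t * V1) ≤ (V2 + X - R / 4) * V0 ^ 2 := by
        have e : (V2 + X - R / 4) * (V0 - t * V1) * (V0 + t * V1) =
          (V2 + X - R / 4) * V0 ^ 2 - (V2 + X - R / 4) * (t * V1) ^ 2 := by ring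
        rw [e]
        have : 0 ≤ (V2 + X - R / 4) * (t * V1) ^ 2 := by positivity
        linarith
      exact h5.trans h7
    have h5 : V1 ^ 2 * (V0 + t * V1) / V0 ^ 2 ≤ V2 + X - R / 4 := by
      rw [div_le_iff₀ (by positivity)]
      exact h4
    linarith
  have e1 : V2 / (L * V1) + X / V1 / L = (V2 + X) / (L * V1) := by
    field_simp
  have e2 : V1 / (L * V0) + t * L * (V1 / (L * V0)) ^ 2 =
      (V1 ^ 2 * (V0 + t * V1) / V0 ^ 2) / (L * V1) := by
    field_simp
  have e3 : R / (L ^ 2 * V0) / 4 ≤ (R / 4) / (L * V1) := by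
    have e4 : R / (L ^ 2 * V0) / 4 = (R / 4) / (L ^ 2 * V0) := by ring
    rw [e4]
    apply div_le_div_of_nonneg_left (by positivity) (by positivity)
    nlinarith
  have e5 : (V1 ^ 2 * (V0 + t * V1) / V0 ^ 2) / (L * V1) + (R / 4) / (L * V1) ≤
      (V2 + X) / (L * V1) := by
    rw [← add_div]
    exact div_le_div_of_nonneg_right h3 (by positivity)
  linarith

/-- the double sum -/
theorem dsum (ε : ℕ → ℝ) (hε : ∀ k, 0 ≤ ε k) (N : ℕ) :
    ∑ k ∈ range N, ∑ j ∈ Ico 1 (k + 1), (1 / 2 : ℝ) ^ j * ε (k + 1 - 1 - j) ≤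
      ∑ k ∈ range N, ε k := by
  set S : ℕ → ℝ := fun k => ∑ j ∈ Ico 1 k, (1 / 2 : ℝ) ^ j * ε (k - 1 - j) with hS
  have hS0 : ∀ k, 0 ≤ S k := fun k => by
    rw [hS]
    exact Finset.sum_nonneg fun j _ => mul_nonneg (by positivity) (hε _)
  have hS1 : S 1 = 0 := by simp [hS]
  have hrec : ∀ k, S (k + 2) = (S (k + 1) + ε k) / 2 := by
    intro k
    simp only [hS]
    rw [Finset.sum_Ico_eq_sum_range, Finset.sum_Ico_eq_sum_range]
    have e1 : k + 2 - 1 = k + 1 := by omega
    have e2 : k + 1 - 1 = k := by omega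
    rw [e1, e2, Finset.sum_range_succ']
    have e3 : ∀ j ∈ range k, (1 / 2 : ℝ) ^ (1 + (j + 1)) * ε (k + 1 - (1 + (j + 1))) =
        (1 / 2) * ((1 / 2 : ℝ) ^ (1 + j) * ε (k - (1 + j))) := by
      intro j _
      have e4 : k + 1 - (1 + (j + 1)) = k - (1 + j) := by omega
      rw [e4]
      ring
    rw [Finset.sum_congr rfl e3, ← Finset.mul_sum]
    have e5 : k + 1 - (1 + 0) = k := by omega
    rw [e5]
    ring
  have hC : ∀ N, (∑ k ∈ range (N + 1), S (k + 1)) + S (N + 1) = ∑ k ∈ range N, ε k := by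
    intro N
    induction N with
    | zero => simp [hS1]
    | succ N ih =>
      rw [Finset.sum_range_succ, Finset.sum_range_succ (fun k => ε k), ← ih]
      have := hrec N
      have e : N + 1 + 1 = N + 2 := by omega
      rw [e, this]
      ring
  show ∑ k ∈ range N, S (k + 1) ≤ _
  cases N with
  | zero => simp
  | succ N =>
    have h1 := hC N
    have h2 := hS0 (N + 1)
    rw [Finset.sum_range_succ (fun k => ε k)]
    have h3 := hε N
    linarith

theorem frc_thm : FRCStmt := by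
  intro t Q L V X R ht hQ hQL hV0 hV1 hVL htV hX hR hdef hG
  have hL9 : (10 : ℝ) ^ 9 ≤ L := by
    have : (10 : ℝ) ^ 9 * 1 ≤ 10 ^ 9 * Q := by gcongr
    linarith
  have hL : 0 < L := by
    have : (0 : ℝ) < 10 ^ 9 := by norm_num
    linarith
  have h3L : 3 / L ≤ 1 / 10 := by
    rw [div_le_iff₀ hL]
    have : (30 : ℝ) ≤ 10 ^ 9 := by norm_num
    linarith
  obtain ⟨q, hq⟩ : ∃ q : ℕ → ℝ, q = fun k => V (k + 1) / (L * V k) := ⟨_, rfl⟩
  obtain ⟨ε, hε⟩ : ∃ ε : ℕ → ℝ, ε = fun k => R k / (L ^ 2 * V k) := ⟨_, rfl⟩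
  have claim : ∀ N : ℕ, (∀ k ≤ N, 0 < V k ∧ 1 - q k ≤ 3 / L) ∧
      (1 - q N) + (1 / 4) * ∑ k ∈ range N, ε k + t * L * (81 / 100) * N ≤
        1 / L + (1 / L) * ∑ k ∈ range N, X (k + 1) / V (k + 1) ∧
      (1 - q N) + t * L * (81 / 100) * N ≤ 3 / L := by
    intro N
    induction N with
    | zero =>
      have h1 : 1 - q 0 ≤ 1 / L := by
        rw [hq]
        show 1 - V (0 + 1) / (L * V 0) ≤ 1 / L
        have h2 : 1 - 1 / L ≤ V (0 + 1) / (L * V 0) := by
          rw [le_div_iff₀ (by positivity)]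
          have e : (1 - 1 / L) * (L * V 0) = (L - 1) * V 0 := by
            field_simp
          rw [e]
          exact hV1
        linarith
      have h13 : 1 / L ≤ 3 / L := by
        gcongr
        norm_num
      refine ⟨?_, ?_, ?_⟩
      · intro k hk
        obtain rfl : k = 0 := by omega
        exact ⟨hV0, h1.trans h13⟩
      · simpa using h1
      · simpa using h1.trans h13
    | succ N ih =>
      obtain ⟨ih1, ih2, -⟩ := ih
      have hqN : ∀ k ≤ N, 9 / 10 ≤ q k := fun k hk => by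
        have := (ih1 k hk).2
        linarith
      have hVk : ∀ k ≤ N, 9 / 10 * L * V k ≤ V (k + 1) := by
        intro k hk
        have h1 := hqN k hk
        rw [hq] at h1
        have h2 : 9 / 10 ≤ V (k + 1) / (L * V k) := h1
        rw [le_div_iff₀ (mul_pos hL (ih1 k hk).1)] at h2
        linarith
      have hVN : 0 < V (N + 1) := by
        have h1 := hVk N le_rfl
        have h2 : 0 < 9 / 10 * L * V N := by
          have := (ih1 N le_rfl).1
          positivity
        linarith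
      have hVpos : ∀ k ≤ N + 1, 0 < V k := by
        intro k hk
        rcases Nat.lt_or_ge k (N + 1) with h | h
        · exact (ih1 k (by omega)).1
        · obtain rfl : k = N + 1 := by omega
          exact hVN
      have hstep := step ht hL (hVpos N (by omega)) hVN (hVL N) (hR N) (htV N) (hdef N)
      have hstep' : (1 - q (N + 1)) + ε N / 4 + t * L * (q N) ^ 2 ≤
          (1 - q N) + (X (N + 1) / V (N + 1)) / L := by
        rw [hq, hε]
        exact hstep
      have hq2 : 81 / 100 ≤ q N ^ 2 := by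
        have := hqN N le_rfl
        nlinarith
      have hq3 : t * L * (81 / 100) ≤ t * L * q N ^ 2 := by gcongr
      have hsum : (1 - q (N + 1)) + (1 / 4) * ∑ k ∈ range (N + 1), ε k +
          t * L * (81 / 100) * ((N + 1 : ℕ) : ℝ) ≤
          1 / L + (1 / L) * ∑ k ∈ range (N + 1), X (k + 1) / V (k + 1) := by
        rw [Finset.sum_range_succ, Finset.sum_range_succ, mul_add, mul_add]
        push_cast
        have e : (X (N + 1) / V (N + 1)) / L = 1 / L * (X (N + 1) / V (N + 1)) := by ring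
        rw [e] at hstep'
        linarith
      have hε0 : ∀ k ≤ N + 1, 0 ≤ ε k := by
        intro k hk
        rw [hε]
        have := hVpos k hk
        have h2 := hR k
        show 0 ≤ R k / (L ^ 2 * V k)
        positivity
      -- modify ε beyond N + 1
      obtain ⟨ε', hε'⟩ : ∃ ε' : ℕ → ℝ, ε' = fun k => if k ≤ N + 1 then ε k else 0 := ⟨_, rfl⟩
      have hε'0 : ∀ k, 0 ≤ ε' k := by
        intro k
        rw [hε']
        show 0 ≤ (if k ≤ N + 1 then ε k else 0)
        split_ifs with h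
        · exact hε0 k h
        · exact le_rfl
      have hε'e : ∀ k ≤ N + 1, ε' k = ε k := by
        intro k hk
        rw [hε']
        exact if_pos hk
      have hGk : ∀ k ∈ range (N + 1), X (k + 1) / V (k + 1) ≤
          (1 / 2) ^ k + 10 ^ 6 * ∑ j ∈ Ico 1 (k + 1), (1 / 2 : ℝ) ^ j * ε' (k + 1 - 1 - j) := by
        intro k hk
        rw [Finset.mem_range] at hk
        have h1 := hG (k + 1) (fun j hj => hVk j (by omega))
        have hVk1 := hVpos (k + 1) (by omega)
        rw [div_le_iff₀ hVk1]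
        refine h1.trans (le_of_eq ?_)
        congr 1
        have e1 : (2 : ℝ) * (1 / 2) ^ (k + 1) = (1 / 2) ^ k := by rw [pow_succ]; ring
        rw [e1]
        congr 1
        congr 1
        refine Finset.sum_congr rfl fun j hj => ?_
        rw [hε'e _ (by omega), hε]
      have hGs : ∑ k ∈ range (N + 1), X (k + 1) / V (k + 1) ≤
          2 + 10 ^ 6 * ∑ k ∈ range (N + 1), ε k := by
        refine (Finset.sum_le_sum hGk).trans ?_
        rw [Finset.sum_add_distrib, ← Finset.mul_sum]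
        have h1 := dsum ε' hε'0 (N + 1)
        have h2 : ∑ k ∈ range (N + 1), ε' k = ∑ k ∈ range (N + 1), ε k :=
          Finset.sum_congr rfl fun k hk => hε'e k (by rw [Finset.mem_range] at hk; omega)
        rw [h2] at h1
        have h3 : ∑ k ∈ range (N + 1), (1 / 2 : ℝ) ^ k ≤ 2 := by
          have : ∀ M : ℕ, ∑ k ∈ range M, (1 / 2 : ℝ) ^ k = 2 - 2 * (1 / 2) ^ M := by
            intro M
            induction M with
            | zero => simp
            | succ M ihM => rw [Finset.sum_range_succ, ihM, pow_succ]; ring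
          rw [this]
          have : (0 : ℝ) < (1 / 2) ^ (N + 1) := by positivity
          linarith
        have h4 : (10 : ℝ) ^ 6 * ∑ k ∈ range (N + 1), ∑ j ∈ Ico 1 (k + 1),
            (1 / 2 : ℝ) ^ j * ε' (k + 1 - 1 - j) ≤ 10 ^ 6 * ∑ k ∈ range (N + 1), ε k := by
          gcongr
        linarith
      have hes : 0 ≤ ∑ k ∈ range (N + 1), ε k :=
        Finset.sum_nonneg fun k hk => hε0 k (by rw [Finset.mem_range] at hk; omega)
      have h6 : (1 / L) * ∑ k ∈ range (N + 1), X (k + 1) / V (k + 1) ≤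
          2 / L + (1 / 4) * ∑ k ∈ range (N + 1), ε k := by
        have h7 : (1 / L) * ∑ k ∈ range (N + 1), X (k + 1) / V (k + 1) ≤
            (1 / L) * (2 + 10 ^ 6 * ∑ k ∈ range (N + 1), ε k) := by gcongr
        have h8 : (1 / L) * (2 + 10 ^ 6 * ∑ k ∈ range (N + 1), ε k) =
            2 / L + (10 ^ 6 / L) * ∑ k ∈ range (N + 1), ε k := by ring
        have h9 : (10 : ℝ) ^ 6 / L ≤ 1 / 4 := by
          rw [div_le_iff₀ hL]
          have : (4 * 10 ^ 6 : ℝ) ≤ 10 ^ 9 := by norm_num
          linarith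
        have h10 : (10 ^ 6 / L) * ∑ k ∈ range (N + 1), ε k ≤
            (1 / 4) * ∑ k ∈ range (N + 1), ε k := mul_le_mul_of_nonneg_right h9 hes
        linarith
      have h14 : (1 - q (N + 1)) + t * L * (81 / 100) * ((N + 1 : ℕ) : ℝ) ≤ 3 / L := by
        have h13 : 3 / L = 1 / L + 2 / L := by ring
        rw [h13]
        linarith
      have h11 : 1 - q (N + 1) ≤ 3 / L := by
        have h12 : 0 ≤ t * L * (81 / 100) * ((N + 1 : ℕ) : ℝ) := by positivity
        linarith
      refine ⟨?_, hsum, h14⟩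
      intro k hk
      rcases Nat.lt_or_ge k (N + 1) with h | h
      · exact ih1 k (by omega)
      · obtain rfl : k = N + 1 := by omega
        exact ⟨hVN, h11⟩
  obtain ⟨N, hN⟩ := exists_nat_gt ((3 / L) / (t * L * (81 / 100)))
  rw [div_lt_iff₀ (by positivity)] at hN
  obtain ⟨h1, -, h3⟩ := claim N
  have h4 : q N ≤ 1 := by
    rw [hq]
    show V (N + 1) / (L * V N) ≤ 1
    rw [div_le_one (mul_pos hL (h1 N le_rfl).1)]
    exact hVL N
  have e : (N : ℝ) * (t * L * (81 / 100)) = t * L * (81 / 100) * N := by ring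
  rw [e] at hN
  linarith

end Pool.Agent.H96.KC.FRC
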