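import Pool.Agent.H18.KC.Stmts

/-!
# Module DEF of board kc: the defect identity
-/

set_option autoImplicit false

open Finset

namespace Pool.Agent.H96.KC.DEF

open Pool.Agent.H18.KC

variable {ι E : Type} [Fintype ι] [NormedAddCommGroup E] [InnerProductSpace ℝ E] {t Q : ℝ}

theorem sum_cons {M : Type} [AddCommMonoid M] (k : ℕ) (f : (Fin (k + 1) → ι) → M) :
    ∑ I, f I = ∑ i, ∑ J : Fin k → ι, f (Fin.cons i J) := by
  rw [← Fintype.sum_prod_type']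
  exact (Fintype.sum_equiv (Fin.consEquiv (fun _ : Fin (k + 1) => ι)) _ _ (fun p => rfl)).symm

theorem hs_cons (D : Dat ι E t Q) (h0 : E) (k : ℕ) (i : ι) (J : Fin k → ι) :
    D.hs h0 (k + 1) (Fin.cons i J) = D.A i (D.hs h0 k J) := by
  show D.A ((Fin.cons i J : Fin (k + 1) → ι) 0)
    (D.hs h0 k (Fin.tail (Fin.cons i J : Fin (k + 1) → ι))) = _
  rw [Fin.cons_zero, Fin.tail_cons]

theorem sum_cons2 {M : Type} [AddCommMonoid M] (k : ℕ) (f : (Fin (k + 2) → ι) → M) :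
    ∑ I, f I = ∑ J : Fin k → ι, ∑ b, ∑ i, f (Fin.cons b (Fin.cons i J : Fin (k + 1) → ι)) := by
  rw [sum_cons]
  rw [Finset.sum_comm (s := (Finset.univ : Finset (Fin k → ι)))]
  refine Finset.sum_congr rfl fun b _ => ?_
  rw [sum_cons, Finset.sum_comm]

theorem swap_cons (k : ℕ) (b i : ι) (J : Fin k → ι) (h : 0 + 1 < k + 2) :
    (Fin.cons b (Fin.cons i J : Fin (k + 1) → ι) : Fin (k + 2) → ι) ∘
      (Equiv.swap (⟨0, by omega⟩ : Fin (k + 2)) ⟨0 + 1, h⟩) = Fin.cons i (Fin.cons b J) := by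
  funext j
  refine Fin.cases ?_ (fun j => ?_) j
  · rw [Function.comp_apply]
    have e : Equiv.swap (⟨0, by omega⟩ : Fin (k + 2)) ⟨0 + 1, h⟩ 0 = Fin.succ 0 :=
      Equiv.swap_apply_left _ _
    rw [e, Fin.cons_succ, Fin.cons_zero, Fin.cons_zero]
  · refine Fin.cases ?_ (fun j => ?_) j
    · rw [Function.comp_apply]
      have e : Equiv.swap (⟨0, by omega⟩ : Fin (k + 2)) ⟨0 + 1, h⟩ (Fin.succ 0) = 0 :=
        Equiv.swap_apply_right _ _
      rw [e, Fin.cons_zero, Fin.cons_succ, Fin.cons_zero]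
    · rw [Function.comp_apply]
      have e : Equiv.swap (⟨0, by omega⟩ : Fin (k + 2)) ⟨0 + 1, h⟩ (Fin.succ (Fin.succ j)) =
          Fin.succ (Fin.succ j) := by
        apply Equiv.swap_apply_of_ne_of_ne
        · intro hj
          have := congrArg Fin.val hj
          simp at this
        · intro hj
          have := congrArg Fin.val hj
          simp at this
      rw [e]
      simp only [Fin.cons_succ]

theorem hs_perp (D : Dat ι E t Q) (h0 : E) (hh : inner ℝ D.e h0 = 0) (k : ℕ) (J : Fin k → ι) :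
    inner ℝ D.e (D.hs h0 k J) = 0 := by
  cases k with
  | zero => exact hh
  | succ k => exact D.inner_e_A _ _

/-- norm of `T i h` -/
theorem norm_T (D : Dat ι E t Q) (i : ι) (h : E) :
    ‖D.T i h‖ ^ 2 = ‖D.A i h‖ ^ 2 + (inner ℝ D.e (D.T i h)) ^ 2 := by
  have e1 : D.T i h = D.A i h + inner ℝ D.e (D.T i h) • D.e := by
    rw [D.A_apply]; abel
  have e2 : inner ℝ (D.A i h) (inner ℝ D.e (D.T i h) • D.e) = 0 := by
    rw [inner_smul_right, real_inner_comm D.e (D.A i h), D.inner_e_A, mul_zero]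
  conv_lhs => rw [e1]
  rw [norm_add_sq_real, e2, norm_smul, D.he]
  rw [Real.norm_eq_abs, mul_one, sq_abs]
  ring

/-- the statements for one `h` -/
theorem one (D : Dat ι E t Q) (h : E) (hh : inner ℝ D.e h = 0) :
    (∑ b, ∑ i, ‖D.B b i h‖ ^ 2) ≤ ‖h‖ ^ 2 - t * ∑ i, ‖D.A i h‖ ^ 2 ∧
    (∑ b, ∑ i, ‖D.T b (D.A i h)‖ ^ 2) = (∑ b, ∑ i, ‖D.A b (D.A i h)‖ ^ 2) +
      ∑ b, ∑ i, (D.P 1 (fun _ => b) (D.A i h)) ^ 2 ∧
    (∑ b, ∑ i, inner ℝ (D.B b i h) (D.T b (D.A i h))) = ∑ i, ‖D.A i h‖ ^ 2 ∧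
    ∀ l : ℝ, (∑ b, ∑ i, ‖D.A b (D.A i h) - D.A i (D.A b h)‖ ^ 2) ≤
      4 * ∑ b, ∑ i, ‖D.T b (D.A i h) - l • D.B b i h‖ ^ 2 := by
  have hTA : ∀ i, ‖D.A i h‖ ^ 2 ≤ ‖D.T i h‖ ^ 2 := fun i => by
    rw [norm_T]; nlinarith [sq_nonneg (inner ℝ D.e (D.T i h))]
  refine ⟨?_, ?_, ?_, ?_⟩
  · have h1 := D.boch h hh
    have h2 : t * ∑ i, ‖D.A i h‖ ^ 2 ≤ t * ∑ i, ‖D.T i h‖ ^ 2 :=
      mul_le_mul_of_nonneg_left (Finset.sum_le_sum fun i _ => hTA i) D.ht.le
    linarith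
  · rw [← Finset.sum_add_distrib]
    refine Finset.sum_congr rfl fun b _ => ?_
    rw [← Finset.sum_add_distrib]
    refine Finset.sum_congr rfl fun i _ => ?_
    rw [norm_T, D.Pone b (D.A i h) (D.inner_e_A i h)]
  · rw [Finset.sum_comm]
    refine Finset.sum_congr rfl fun i _ => ?_
    rw [← D.dual h (D.A i h) hh (D.inner_e_A i h) i]
    have e1 : D.T i h = D.A i h + inner ℝ D.e (D.T i h) • D.e := by
      rw [D.A_apply]; abel
    rw [e1, inner_add_left, inner_smul_left, D.inner_e_A, mul_zero, add_zero,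
      real_inner_self_eq_norm_sq]
  · intro l
    set F : ι → ι → E := fun b i => D.T b (D.A i h) - l • D.B b i h with hF
    have key : ∀ b i, ‖D.A b (D.A i h) - D.A i (D.A b h)‖ ^ 2 ≤
        2 * ‖F b i‖ ^ 2 + 2 * ‖F i b‖ ^ 2 := by
      intro b i
      have e1 : D.A b (D.A i h) - D.A i (D.A b h) =
          (F b i - F i b) - inner ℝ D.e (F b i - F i b) • D.e := by
        simp only [hF]
        rw [D.symB b i h, D.A_apply b (D.A i h), D.A_apply i (D.A b h)]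
        rw [inner_sub_right, inner_sub_right, inner_sub_right]
        module
      have e2 : ‖(F b i - F i b) - inner ℝ D.e (F b i - F i b) • D.e‖ ^ 2 ≤
          ‖F b i - F i b‖ ^ 2 := by
        rw [norm_sub_sq_real, inner_smul_right, norm_smul, D.he, Real.norm_eq_abs, mul_one, sq_abs,
          real_inner_comm]
        nlinarith [sq_nonneg (inner ℝ (F b i - F i b) D.e)]
      have e3 : ‖F b i - F i b‖ ^ 2 ≤ 2 * ‖F b i‖ ^ 2 + 2 * ‖F i b‖ ^ 2 := by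
        have h1 := norm_sub_le (F b i) (F i b)
        have h2 : ‖F b i - F i b‖ ^ 2 ≤ (‖F b i‖ + ‖F i b‖) ^ 2 :=
          pow_le_pow_left₀ (norm_nonneg _) h1 2
        nlinarith [sq_nonneg (‖F b i‖ - ‖F i b‖)]
      rw [e1]
      exact e2.trans e3
    calc (∑ b, ∑ i, ‖D.A b (D.A i h) - D.A i (D.A b h)‖ ^ 2)
        ≤ ∑ b, ∑ i, (2 * ‖F b i‖ ^ 2 + 2 * ‖F i b‖ ^ 2) :=
          Finset.sum_le_sum fun b _ => Finset.sum_le_sum fun i _ => key b i
      _ = 4 * ∑ b, ∑ i, ‖F b i‖ ^ 2 := by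
          simp only [Finset.sum_add_distrib, ← Finset.mul_sum]
          rw [Finset.sum_comm (f := fun b i => ‖F i b‖ ^ 2)]
          ring

theorem def_thm : DEFStmt := by
  intro ι E _ _ _ t Q D h0 hh k
  obtain ⟨H, hH⟩ : ∃ H : (Fin k → ι) → E, H = D.hs h0 k := ⟨_, rfl⟩
  have hp : ∀ J, inner ℝ D.e (H J) = 0 := fun J => hH ▸ hs_perp D h0 hh k J
  have hV0 : D.V h0 k = ∑ J, ‖H J‖ ^ 2 := by rw [hH]; rfl
  have hV1 : D.V h0 (k + 1) = ∑ J, ∑ i, ‖D.A i (H J)‖ ^ 2 := by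
    unfold Dat.V
    rw [sum_cons, Finset.sum_comm]
    simp only [hs_cons, hH]
  have hV2 : D.V h0 (k + 2) = ∑ J, ∑ b, ∑ i, ‖D.A b (D.A i (H J))‖ ^ 2 := by
    unfold Dat.V
    rw [sum_cons2]
    simp only [hs_cons, hH]
  have hX : D.X h0 (k + 1) = ∑ J, ∑ b, ∑ i, (D.P 1 (fun _ => b) (D.A i (H J))) ^ 2 := by
    unfold Dat.X
    rw [Finset.sum_comm (s := (Finset.univ : Finset (Fin k → ι)))]
    refine Finset.sum_congr rfl fun b _ => ?_
    rw [sum_cons, Finset.sum_comm]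
    simp only [hs_cons, hH]
  have hR : D.R h0 (k + 2) 0 = ∑ J, ∑ b, ∑ i, ‖D.A b (D.A i (H J)) - D.A i (D.A b (H J))‖ ^ 2 := by
    unfold Dat.R
    rw [dif_pos (show 0 + 1 < k + 2 by omega), sum_cons2]
    refine Finset.sum_congr rfl fun J _ => Finset.sum_congr rfl fun b _ =>
      Finset.sum_congr rfl fun i _ => ?_
    rw [swap_cons, hs_cons, hs_cons, hs_cons, hs_cons, hH]
  obtain ⟨W, hW⟩ : ∃ W, W = D.V h0 k - t * D.V h0 (k + 1) := ⟨_, rfl⟩
  obtain ⟨N, hN⟩ : ∃ N, N = D.V h0 (k + 2) + D.X h0 (k + 1) := ⟨_, rfl⟩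
  rw [← hW, ← hN]
  obtain ⟨β, hβ⟩ : ∃ β, β = ∑ J, ∑ b, ∑ i, ‖D.B b i (H J)‖ ^ 2 := ⟨_, rfl⟩
  have hβW : β ≤ W := by
    rw [hβ, hW, hV0, hV1, Finset.mul_sum, ← Finset.sum_sub_distrib]
    exact Finset.sum_le_sum fun J _ => (one D (H J) (hp J)).1
  have hβ0 : 0 ≤ β := by
    rw [hβ]
    exact Finset.sum_nonneg fun J _ => Finset.sum_nonneg fun b _ =>
      Finset.sum_nonneg fun i _ => by positivity
  have hR0 : 0 ≤ D.R h0 (k + 2) 0 := by
    rw [hR]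
    exact Finset.sum_nonneg fun J _ => Finset.sum_nonneg fun b _ =>
      Finset.sum_nonneg fun i _ => by positivity
  have hNN : N = ∑ J, ∑ b, ∑ i, ‖D.T b (D.A i (H J))‖ ^ 2 := by
    rw [hN, hV2, hX, ← Finset.sum_add_distrib]
    exact Finset.sum_congr rfl fun J _ => ((one D (H J) (hp J)).2.1).symm
  have hBD : (∑ J, ∑ b, ∑ i, inner ℝ (D.B b i (H J)) (D.T b (D.A i (H J)))) =
      D.V h0 (k + 1) := by
    rw [hV1]
    exact Finset.sum_congr rfl fun J _ => (one D (H J) (hp J)).2.2.1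
  have key : ∀ l : ℝ, D.R h0 (k + 2) 0 ≤ 4 * (N - 2 * l * D.V h0 (k + 1) + l ^ 2 * β) := by
    intro l
    have h1 : D.R h0 (k + 2) 0 ≤
        ∑ J, 4 * ∑ b, ∑ i, ‖D.T b (D.A i (H J)) - l • D.B b i (H J)‖ ^ 2 := by
      rw [hR]
      exact Finset.sum_le_sum fun J _ => (one D (H J) (hp J)).2.2.2 l
    have h2 : (∑ J, 4 * ∑ b, ∑ i, ‖D.T b (D.A i (H J)) - l • D.B b i (H J)‖ ^ 2) =
        4 * (N - 2 * l * D.V h0 (k + 1) + l ^ 2 * β) := by
      rw [← Finset.mul_sum]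
      congr 1
      rw [hNN, ← hBD, hβ]
      simp only [Finset.mul_sum]
      rw [← Finset.sum_sub_distrib, ← Finset.sum_add_distrib]
      refine Finset.sum_congr rfl fun J _ => ?_
      rw [← Finset.sum_sub_distrib, ← Finset.sum_add_distrib]
      refine Finset.sum_congr rfl fun b _ => ?_
      rw [← Finset.sum_sub_distrib, ← Finset.sum_add_distrib]
      refine Finset.sum_congr rfl fun i _ => ?_
      rw [norm_sub_sq_real, inner_smul_right, norm_smul, Real.norm_eq_abs, mul_pow, sq_abs,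
        real_inner_comm]
      ring
    exact h1.trans h2.le
  have key2 : ∀ l : ℝ, D.R h0 (k + 2) 0 ≤ 4 * (N - 2 * l * D.V h0 (k + 1) + l ^ 2 * W) := by
    intro l
    have h1 := key l
    have h2 : l ^ 2 * β ≤ l ^ 2 * W := mul_le_mul_of_nonneg_left hβW (sq_nonneg l)
    linarith
  have hW0 : 0 ≤ W := hβ0.trans hβW
  rcases hW0.eq_or_lt with hWz | hWp
  · rw [← hWz] at key2 ⊢
    have hV : D.V h0 (k + 1) = 0 := by
      by_contra hV
      have h1 := key2 ((N + 1) / (2 * D.V h0 (k + 1)))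
      have h2 : 2 * ((N + 1) / (2 * D.V h0 (k + 1))) * D.V h0 (k + 1) = N + 1 := by
        field_simp
      rw [h2] at h1
      linarith
    rw [hV]
    simp
  · have h1 := key2 (D.V h0 (k + 1) / W)
    have h2 : D.R h0 (k + 2) 0 * W ≤
        4 * (N - 2 * (D.V h0 (k + 1) / W) * D.V h0 (k + 1) + (D.V h0 (k + 1) / W) ^ 2 * W) * W :=
      mul_le_mul_of_nonneg_right h1 hWp.le
    have h3 : 4 * (N - 2 * (D.V h0 (k + 1) / W) * D.V h0 (k + 1) +
        (D.V h0 (k + 1) / W) ^ 2 * W) * W = 4 * (N * W - D.V h0 (k + 1) ^ 2) := by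
      field_simp
      ring
    rwa [h3] at h2

end Pool.Agent.H96.KC.DEF
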